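import Mathlib

/-! Sparse uniform hypergraphs of large chromatic number (vertex partite construction of
Nesetril and Rodl). -/

set_option autoImplicit false

open Function

namespace Pool.Agent.H95.Ram

/-- position `a` of the edge `e` is shared with another edge of `s` -/
def Sh {E α V : Type} (φ : E → α → V) (s : Finset E) (e : E) (a : α) : Prop :=
  ∃ e' ∈ s, e' ≠ e ∧ ∃ a', φ e' a' = φ e a

/-- every subsystem of at least two and at most `N` edges has a leaf different from a given edge -/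
def Sparse {E α V : Type} (N : ℕ) (φ : E → α → V) : Prop :=
  ∀ s : Finset E, 2 ≤ s.card → s.card ≤ N → ∀ e1 ∈ s, ∃ e ∈ s, e ≠ e1 ∧
    ∀ a b, Sh φ s e a → Sh φ s e b → a = b

/-- every vertex colouring has a monochromatic edge -/
def Mono {E α V : Type} (κ : Type) (φ : E → α → V) : Prop :=
  ∀ c : V → κ, ∃ e : E, ∃ k : κ, ∀ a, c (φ e a) = k

/-- gluing map of the partite amalgamation -/
noncomputable def gl {X F V P : Type} (π : V → P) (j : P) (ψ : F → {v : V // π v = j} → X)
    (h : F) (v : V) : X ⊕ (F × V) := by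
  classical
  exact if hv : π v = j then Sum.inl (ψ h ⟨v, hv⟩) else Sum.inr (h, v)

theorem gl_eq {X F V P : Type} (π : V → P) (j : P) (ψ : F → {v : V // π v = j} → X)
    (hψ : ∀ h, Injective (ψ h)) (h h' : F) (v v' : V) (he : gl π j ψ h v = gl π j ψ h' v') :
    (h = h' ∧ v = v') ∨ (h ≠ h' ∧ ∃ (hv : π v = j) (hv' : π v' = j),
      ψ h ⟨v, hv⟩ = ψ h' ⟨v', hv'⟩) := by
  classical
  unfold gl at he
  by_cases hv : π v = j
  · by_cases hv' : π v' = j
    · rw [dif_pos hv, dif_pos hv'] at he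
      have he' := Sum.inl_injective he
      by_cases hh : h = h'
      · subst hh
        left
        have := hψ h he'
        exact ⟨rfl, congrArg Subtype.val this⟩
      · right
        exact ⟨hh, hv, hv', he'⟩
    · rw [dif_pos hv, dif_neg hv'] at he
      exact absurd he (by simp)
  · by_cases hv' : π v' = j
    · rw [dif_neg hv, dif_pos hv'] at he
      exact absurd he (by simp)
    · rw [dif_neg hv, dif_neg hv'] at he
      have he' := Sum.inr_injective he
      left
      exact ⟨congrArg Prod.fst he', congrArg Prod.snd he'⟩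

/-- the part map of the amalgam -/
def glπ {X F V P : Type} (π : V → P) (j : P) : X ⊕ (F × V) → P
  | Sum.inl _ => j
  | Sum.inr p => π p.2

theorem glπ_gl {X F V P : Type} (π : V → P) (j : P) (ψ : F → {v : V // π v = j} → X)
    (h : F) (v : V) : glπ π j (gl π j ψ h v) = π v := by
  classical
  unfold gl
  by_cases hv : π v = j
  · rw [dif_pos hv, hv]; rfl
  · rw [dif_neg hv]; rfl

theorem sparse_amalgam {X F V P E α : Type} (N : ℕ) (π : V → P) (j : P)
    (ψ : F → {v : V // π v = j} → X) (hψ : ∀ h, Injective (ψ h)) (hψs : Sparse N ψ)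
    (φ : E → α → V) (htr : ∀ e, Injective (fun x => π (φ e x))) (hφs : Sparse (N + 1) φ) :
    Sparse (N + 1) (fun (p : F × E) x => gl π j ψ p.1 (φ p.2 x)) := by
  classical
  intro s hs2 hsN p1 hp1
  set φ' : F × E → α → X ⊕ (F × V) := fun p x => gl π j ψ p.1 (φ p.2 x) with hφ'
  let HH : Finset F := s.image Prod.fst
  let S : F → Finset E := fun h => (s.filter (fun p => p.1 = h)).image Prod.snd
  have memS : ∀ h e, e ∈ S h ↔ (h, e) ∈ s := by
    intro h e
    simp only [S, Finset.mem_image, Finset.mem_filter]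
    constructor
    · rintro ⟨⟨h', e'⟩, ⟨hm, h1⟩, h2⟩
      simp only at h1 h2
      subst h1; subst h2
      exact hm
    · intro hm
      exact ⟨(h, e), ⟨hm, rfl⟩, rfl⟩
  have cardS : ∀ h, (S h).card = (s.filter (fun p => p.1 = h)).card := by
    intro h
    apply Finset.card_image_of_injOn
    intro p hp p' hp' hpp
    simp only [Finset.coe_filter, Set.mem_ofPred_eq] at hp hp'
    exact Prod.ext (hp.2.trans hp'.2.symm) hpp
  have memHH : ∀ p ∈ s, p.1 ∈ HH := fun p hp => Finset.mem_image_of_mem _ hp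
  -- analysis of shared positions
  have hSh : ∀ h e a, Sh φ' s (h, e) a → Sh φ (S h) e a ∨
      ∃ hv : π (φ e a) = j, Sh ψ HH h ⟨φ e a, hv⟩ := by
    rintro h e a ⟨⟨h', e'⟩, hm, hne, a', ha'⟩
    simp only [hφ'] at ha'
    rcases gl_eq π j ψ hψ h' h (φ e' a') (φ e a) ha' with ⟨h1, h2⟩ | ⟨h1, hv', hv, h2⟩
    · left
      subst h1
      refine ⟨e', (memS _ _).2 hm, ?_, a', h2⟩
      rintro rfl
      exact hne rfl
    · right
      exact ⟨hv, h', memHH _ hm, h1, _, h2⟩
  have hSmono : ∀ h ∈ HH, 1 ≤ (S h).card := by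
    intro h hh
    obtain ⟨p, hp, rfl⟩ := Finset.mem_image.1 hh
    exact Finset.card_pos.2 ⟨p.2, (memS _ _).2 hp⟩
  have hSle : ∀ h, (S h).card ≤ N + 1 := by
    intro h
    rw [cardS]
    exact (Finset.card_filter_le _ _).trans hsN
  by_cases hA : HH.card ≤ 1
  · -- one copy
    have hall : ∀ p ∈ s, p.1 = p1.1 := fun p hp => Finset.card_le_one.1 hA _ (memHH p hp) _
      (memHH p1 hp1)
    have hcard : (S p1.1).card = s.card := by
      rw [cardS, Finset.filter_true_of_mem hall]
    obtain ⟨e, he, hne, hleaf⟩ := hφs (S p1.1) (by omega) (by omega) p1.2 ((memS _ _).2 hp1)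
    refine ⟨(p1.1, e), (memS _ _).1 he, ?_, ?_⟩
    · intro h
      apply hne
      rw [← h]
    · intro a b ha hb
      have key : ∀ a, Sh φ' s (p1.1, e) a → Sh φ (S p1.1) e a := by
        intro a ha
        rcases hSh _ _ _ ha with h | ⟨hv, h', hm', hne', -⟩
        · exact h
        · exact absurd (Finset.card_le_one.1 hA _ hm' _ (memHH p1 hp1)) hne'
      exact hleaf a b (key a ha) (key b hb)
  push Not at hA
  by_cases hB : ∃ h ∈ HH, h ≠ p1.1 ∧ (S h).card = 1
  · obtain ⟨h, hh, hne, hc⟩ := hB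
    obtain ⟨e, he⟩ := Finset.card_eq_one.1 hc
    have hem : e ∈ S h := by rw [he]; exact Finset.mem_singleton_self _
    refine ⟨(h, e), (memS _ _).1 hem, ?_, ?_⟩
    · intro h'
      apply hne
      rw [← h']
    · have key : ∀ a, Sh φ' s (h, e) a → π (φ e a) = j := by
        intro a ha
        rcases hSh _ _ _ ha with ⟨e', he', hne', -⟩ | ⟨hv, -⟩
        · rw [he, Finset.mem_singleton] at he'
          exact absurd he' hne'
        · exact hv
      intro a b ha hb
      exact htr e ((key a ha).trans (key b hb).symm)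
  push Not at hB
  -- all other copies contain at least two edges
  have hge : ∀ h ∈ HH.erase p1.1, 2 ≤ (S h).card := by
    intro h hh
    rw [Finset.mem_erase] at hh
    have h1 := hSmono h hh.2
    have h2 := hB h hh.2 hh.1
    omega
  have hsum : s.card = ∑ h ∈ HH, (S h).card := by
    rw [Finset.card_eq_sum_card_image Prod.fst s]
    exact Finset.sum_congr rfl fun h _ => (cardS h).symm
  have hp1H : p1.1 ∈ HH := memHH p1 hp1
  have hcount : 1 + 2 * (HH.card - 1) ≤ s.card := by
    rw [hsum, ← Finset.add_sum_erase HH _ hp1H]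
    have h1 := hSmono _ hp1H
    have h2 : (HH.erase p1.1).card • 2 ≤ ∑ h ∈ HH.erase p1.1, (S h).card :=
      Finset.card_nsmul_le_sum _ _ _ hge
    rw [Finset.card_erase_of_mem hp1H, smul_eq_mul] at h2
    omega
  have hHN : HH.card ≤ N := by omega
  obtain ⟨h, hh, hne, hleaf⟩ := hψs HH (by omega) hHN p1.1 hp1H
  -- choose the base edge
  have hbase : ∃ e0 ∈ S h, (∃ e ∈ S h, ∃ x, ∃ hv : π (φ e x) = j, Sh ψ HH h ⟨φ e x, hv⟩) →
      ∃ x, ∃ hv : π (φ e0 x) = j, Sh ψ HH h ⟨φ e0 x, hv⟩ := by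
    by_cases hex : ∃ e ∈ S h, ∃ x, ∃ hv : π (φ e x) = j, Sh ψ HH h ⟨φ e x, hv⟩
    · obtain ⟨e, he, hx⟩ := hex
      exact ⟨e, he, fun _ => hx⟩
    · obtain ⟨e, he⟩ := Finset.card_pos.1 (hSmono h hh)
      exact ⟨e, he, fun h' => absurd h' hex⟩
  obtain ⟨e0, he0, he0'⟩ := hbase
  have hge2 : 2 ≤ (S h).card := hge h (Finset.mem_erase.2 ⟨hne, hh⟩)
  obtain ⟨e, he, hee0, hleaf2⟩ := hφs (S h) hge2 (hSle h) e0 he0
  refine ⟨(h, e), (memS _ _).1 he, ?_, ?_⟩
  · intro h'
    apply hne
    rw [← h']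
  · have key : ∀ a, Sh φ' s (h, e) a → Sh φ (S h) e a := by
      intro a ha
      rcases hSh _ _ _ ha with h1 | ⟨hv, hsh⟩
      · exact h1
      · obtain ⟨x0, hv0, hsh0⟩ := he0' ⟨e, he, a, hv, hsh⟩
        have := hleaf _ _ hsh hsh0
        have h2 : φ e a = φ e0 x0 := congrArg Subtype.val this
        exact ⟨e0, he0, Ne.symm hee0, x0, h2.symm⟩
    intro a b ha hb
    exact hleaf2 a b (key a ha) (key b hb)

/-- the partite systems -/
theorem partite_step (N : ℕ)
    (IH : ∀ (α κ : Type) [Finite α] [Finite κ] [Nonempty κ], ∃ (V E : Type) (_ : Finite V)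
      (_ : Finite E) (φ : E → α → V), (∀ e, Injective (φ e)) ∧ Sparse N φ ∧ Mono κ φ)
    (α κ : Type) [Finite α] [Finite κ] [Nonempty κ] (P : Type) [Finite P] (J : Finset P) :
    ∃ (V E : Type) (_ : Finite V) (_ : Finite E) (π : V → P) (φ : E → α → V),
      (∀ e, Injective (fun x => π (φ e x))) ∧ Sparse (N + 1) φ ∧
      ∀ c : V → κ, ∃ (col : P → κ) (Φ : (α ↪ P) → E), ∀ σ x, π (φ (Φ σ) x) = σ x ∧
        (σ x ∈ J → c (φ (Φ σ) x) = col (σ x)) := by
  classical
  induction J using Finset.induction_on with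
  | empty =>
    have : Finite (α ↪ P) := Finite.of_injective (fun f => (f : α → P)) DFunLike.coe_injective
    refine ⟨(α ↪ P) × α, α ↪ P, inferInstance, inferInstance, fun p => p.1 p.2,
      fun σ x => (σ, x), ?_, ?_, ?_⟩
    · intro σ x y hxy
      exact σ.injective hxy
    · intro s hs2 _ e1 he1
      obtain ⟨e, he, hne⟩ := Finset.exists_mem_ne (by omega : 1 < s.card) e1
      refine ⟨e, he, hne, ?_⟩
      rintro a b ⟨e', _, hne', a', ha'⟩
      exact absurd (congrArg Prod.fst ha') hne'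
    · intro c
      exact ⟨fun _ => Classical.arbitrary κ, fun σ => σ, fun σ x => ⟨rfl, fun h => by simp at h⟩⟩
  | insert j J hj ih =>
    obtain ⟨V, E, hV, hE, π, φ, htr, hsp, hcol⟩ := ih
    obtain ⟨X, F, hX, hF, ψ, hψ, hψs, hψm⟩ := IH {v : V // π v = j} κ
    refine ⟨X ⊕ (F × V), F × E, inferInstance, inferInstance, glπ π j,
      fun p x => gl π j ψ p.1 (φ p.2 x), ?_, ?_, ?_⟩
    · intro e x y hxy
      simp only [glπ_gl] at hxy
      exact htr e.2 hxy
    · exact sparse_amalgam N π j ψ hψ hψs φ htr hsp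
    · intro c
      obtain ⟨h, k, hk⟩ := hψm (fun x => c (Sum.inl x))
      obtain ⟨col, Φ, hΦ⟩ := hcol (fun v => c (gl π j ψ h v))
      refine ⟨Function.update col j k, fun σ => (h, Φ σ), ?_⟩
      intro σ x
      refine ⟨?_, ?_⟩
      · simp only [glπ_gl]
        exact (hΦ σ x).1
      · intro hmem
        by_cases hσ : σ x = j
        · rw [hσ, Function.update_self]
          have hv : π (φ (Φ σ) x) = j := by rw [(hΦ σ x).1, hσ]
          have h1 : gl π j ψ h (φ (Φ σ) x) = Sum.inl (ψ h ⟨φ (Φ σ) x, hv⟩) := by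
            unfold gl
            rw [dif_pos hv]
          simp only [h1]
          exact hk _
        · rw [Function.update_of_ne hσ]
          rcases Finset.mem_insert.1 hmem with h1 | h1
          · exact absurd h1 hσ
          · exact (hΦ σ x).2 h1

theorem hyp (N : ℕ) : ∀ (α κ : Type) [Finite α] [Finite κ] [Nonempty κ],
    ∃ (V E : Type) (_ : Finite V) (_ : Finite E) (φ : E → α → V),
      (∀ e, Injective (φ e)) ∧ Sparse N φ ∧ Mono κ φ := by
  classical
  -- pigeonhole
  have pig : ∀ (α κ : Type) [Finite α] [Finite κ] [Nonempty κ] (col : Fin (Nat.card κ * Nat.card α + 1) → κ),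
      ∃ (σ : α ↪ Fin (Nat.card κ * Nat.card α + 1)) (k : κ), ∀ x, col (σ x) = k := by
    intro α κ _ _ _ col
    have := Fintype.ofFinite κ
    have := Fintype.ofFinite α
    obtain ⟨k, hk⟩ := Fintype.exists_lt_card_fiber_of_mul_lt_card (n := Fintype.card α) col
      (by simp [Nat.card_eq_fintype_card])
    have : Fintype.card α ≤ Fintype.card {i // col i = k} := by
      rw [Fintype.card_subtype]
      exact hk.le
    obtain ⟨g⟩ := Function.Embedding.nonempty_of_card_le this
    exact ⟨⟨fun x => (g x).1, fun x y hxy => g.injective (Subtype.ext hxy)⟩, k,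
      fun x => (g x).2⟩
  induction N with
  | zero =>
    intro α κ _ _ _
    let P := Fin (Nat.card κ * Nat.card α + 1)
    have : Finite (α ↪ P) := Finite.of_injective (fun f => (f : α → P)) DFunLike.coe_injective
    refine ⟨P, α ↪ P, inferInstance, inferInstance, fun σ x => σ x, fun σ => σ.injective, ?_, ?_⟩
    · intro s hs2 hs0
      omega
    · intro c
      obtain ⟨σ, k, hk⟩ := pig α κ c
      exact ⟨σ, k, hk⟩
  | succ N ih =>
    intro α κ _ _ _
    let P := Fin (Nat.card κ * Nat.card α + 1)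
    obtain ⟨V, E, hV, hE, π, φ, htr, hsp, hcol⟩ := partite_step N (@ih) α κ P Finset.univ
    refine ⟨V, E, hV, hE, φ, ?_, hsp, ?_⟩
    · intro e x y hxy
      exact htr e (congrArg π hxy)
    · intro c
      obtain ⟨col, Φ, hΦ⟩ := hcol c
      obtain ⟨σ, k, hk⟩ := pig α κ col
      refine ⟨Φ σ, k, ?_⟩
      intro x
      rw [(hΦ σ x).2 (Finset.mem_univ _), hk]

/-- if colourings with colours `κ₁ × κ₂` always have a monochromatic edge, then for every
colouring with colours `κ₁` some class spans a system with the same property for `κ₂` -/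
theorem mono_split {E α V κ₁ κ₂ : Type} (φ : E → α → V) (h : Mono (κ₁ × κ₂) φ) (ρ : V → κ₁) :
    ∃ i : κ₁, ∀ κ : V → κ₂, ∃ e, (∀ a, ρ (φ e a) = i) ∧ ∃ k, ∀ a, κ (φ e a) = k := by
  classical
  by_contra hcon
  push Not at hcon
  choose K hK using hcon
  obtain ⟨e, ⟨i, k⟩, he⟩ := h (fun v => (ρ v, K (ρ v) v))
  have h1 : ∀ a, ρ (φ e a) = i := fun a => congrArg Prod.fst (he a)
  obtain ⟨a, ha⟩ := hK i e h1 k
  apply ha
  have := congrArg Prod.snd (he a)
  simp only [h1] at this
  exact this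

end Pool.Agent.H95.Ram
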